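import Mathlib

/-!
# An additive MRD code with minimum distance 2 that contains no additive MRD code with distance 3

The code consists of the `4 × 4` matrices over `F_2` that are orthogonal to a semifield spread set
belonging to a proper semifield of order 16. An MRD subcode with minimum distance 3 would project
bijectively onto the first two columns; a search over the matrices of the code whose first two
columns form a unit vector shows that this is impossible.
-/

set_option autoImplicit false

namespace Pool.Agent.Results.MP_e73581_co.NotNested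

/-- The minimum distance of a set `C` of `n × n` matrices with respect to the rank distance
`d(A, B) = rank (A - B)` is `d`. -/
def HasMinDist {F : Type} [Field F] {n : ℕ} (C : Set (Matrix (Fin n) (Fin n) F)) (d : ℕ) : Prop :=
  IsLeast {r | ∃ A ∈ C, ∃ B ∈ C, A ≠ B ∧ (A - B).rank = r} d

/-- `C` is an additive MRD code of `n × n` matrices over `F` with minimum distance `d`: an additive
subgroup with minimum distance `d` and `q ^ (n (n - d + 1))` elements, `q = |F|`. -/
def IsAdditiveMRD {F : Type} [Field F] {n : ℕ} (C : AddSubgroup (Matrix (Fin n) (Fin n) F))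
    (d : ℕ) : Prop :=
  HasMinDist (C : Set (Matrix (Fin n) (Fin n) F)) d ∧ Nat.card C = Nat.card F ^ (n * (n - d + 1))

/-! ### Codes of matrices by natural numbers -/

abbrev M4 := Matrix (Fin 4) (Fin 4) (ZMod 2)

def bz (t : Bool) : ZMod 2 := if t then 1 else 0

lemma bz_xor (a b : Bool) : bz (a ^^ b) = bz a + bz b := by revert a b; decide

lemma bz_and (a b : Bool) : bz (a && b) = bz a * bz b := by revert a b; decide

lemma bz_eq_one (a : ZMod 2) : bz (decide (a = 1)) = a := by revert a; decide

lemma bz_inj {a b : Bool} (h : bz a = bz b) : a = b := by revert a b; decide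

/-- bit `4 j + i` of `x` is the entry `(i, j)` -/
def dec (x : ℕ) : M4 := fun i j => bz (x.testBit (4 * (j : ℕ) + (i : ℕ)))

lemma dec_xor (x y : ℕ) : dec (x ^^^ y) = dec x + dec y := by
  ext i j
  simp only [dec, Nat.testBit_xor, Matrix.add_apply, bz_xor]

/-- the code of a matrix -/
def enc (A : M4) : ℕ :=
  Nat.ofBits fun k : Fin 16 => decide (A ⟨(k : ℕ) % 4, by omega⟩ ⟨(k : ℕ) / 4, by omega⟩ = 1)

lemma enc_lt (A : M4) : enc A < 65536 := Nat.ofBits_lt_two_pow (n := 16) _

lemma testBit_enc (A : M4) (i j : Fin 4) :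
    (enc A).testBit (4 * (j : ℕ) + (i : ℕ)) = decide (A i j = 1) := by
  unfold enc
  rw [Nat.testBit_ofBits_lt _ _ (by omega)]
  congr 3
  · apply Fin.ext; simp only; omega
  · apply Fin.ext; simp only; omega

lemma dec_enc (A : M4) : dec (enc A) = A := by
  ext i j
  rw [dec, testBit_enc, bz_eq_one]

lemma dec_inj {x y : ℕ} (hx : x < 65536) (hy : y < 65536) (h : dec x = dec y) : x = y := by
  apply Nat.eq_of_testBit_eq
  intro k
  by_cases hk : k < 16
  · have h1 := congrFun (congrFun h ⟨k % 4, by omega⟩) ⟨k / 4, by omega⟩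
    simp only [dec] at h1
    have h2 := bz_inj h1
    rwa [show 4 * (k / 4) + k % 4 = k by omega] at h2
  · rw [Nat.testBit_lt_two_pow (lt_of_lt_of_le hx (Nat.pow_le_pow_right (n := 2) (by omega)
      (show 16 ≤ k by omega))), Nat.testBit_lt_two_pow (lt_of_lt_of_le hy
      (Nat.pow_le_pow_right (n := 2) (by omega) (show 16 ≤ k by omega)))]

/-- column `j` of the matrix with code `x`, as a number below 16 -/
def col (x j : ℕ) : ℕ := (x >>> (4 * j)) % 16

/-- the combination of the columns given by the bits of `v` -/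
def comb (x v : ℕ) : ℕ :=
  (((cond (v.testBit 0) (col x 0) 0) ^^^ (cond (v.testBit 1) (col x 1) 0)) ^^^
    (cond (v.testBit 2) (col x 2) 0)) ^^^ (cond (v.testBit 3) (col x 3) 0)

/-- number of nonzero column dependencies -/
def deps (x : ℕ) : List ℕ := (List.range 15).filter fun v => comb x (v + 1) == 0

/-- the matrix is zero or has rank at least three -/
def ok (x : ℕ) : Bool := (deps x).length ≤ 1 || x == 0

/-- depth first search -/
def go : List (List ℕ) → List ℕ → Bool
  | [], _ => true
  | c :: cs, sp => c.any fun x => (sp.all fun s => ok (s ^^^ x)) && go cs (sp ++ sp.map (· ^^^ x))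

/-- the parity of the 16 lowest bits of `z` -/
def par (z : ℕ) : Bool :=
  let z1 := z ^^^ (z >>> 8)
  let z2 := z1 ^^^ (z1 >>> 4)
  let z3 := z2 ^^^ (z2 >>> 2)
  (z3 ^^^ (z3 >>> 1)).testBit 0

/-- the functionals defining the code -/
def s : Fin 4 → ℕ := ![0x16BE, 0x2AEF, 0x483A, 0x89AD]

def inC (x : ℕ) : Bool :=
  !(par (0x16BE &&& x)) && (!(par (0x2AEF &&& x)) && (!(par (0x483A &&& x)) &&
    !(par (0x89AD &&& x))))

def cand (p : ℕ) : List ℕ := ((List.range 256).map fun h => 2 ^ p + 256 * h).filter inC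

set_option maxRecDepth 100000 in
theorem go_false : go ((List.range 8).map cand) [0] = false := by decide +kernel

lemma bz_par (z : ℕ) : bz (par z) = ∑ i : Fin 4, ∑ j : Fin 4,
    bz (z.testBit (4 * (j : ℕ) + (i : ℕ))) := by
  unfold par
  simp only [Nat.testBit_xor, Nat.testBit_shiftRight, bz_xor, Fin.sum_univ_four, Fin.val_zero,
    Fin.val_one, Fin.val_two, show ((3 : Fin 4) : ℕ) = 3 from rfl]
  norm_num
  ring

/-! ### The code -/

def L : M4 →ₗ[ZMod 2] (Fin 4 → ZMod 2) where
  toFun A i := ∑ k, ∑ j, dec (s i) k j * A k j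
  map_add' A B := by
    ext i
    simp only [Matrix.add_apply, mul_add, Finset.sum_add_distrib, Pi.add_apply]
  map_smul' c A := by
    ext i
    simp only [Matrix.smul_apply, smul_eq_mul, Pi.smul_apply, RingHom.id_apply, Finset.mul_sum]
    refine Finset.sum_congr rfl fun k _ => Finset.sum_congr rfl fun j _ => ?_
    ring

lemma L_dec (x : ℕ) (i : Fin 4) : L (dec x) i = bz (par (s i &&& x)) := by
  rw [bz_par]
  simp only [L, LinearMap.coe_mk, AddHom.coe_mk, Nat.testBit_and, bz_and, dec]

/-- the code -/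
def C : AddSubgroup M4 := (LinearMap.ker L).toAddSubgroup

lemma mem_C {A : M4} : A ∈ C ↔ L A = 0 := Iff.rfl

lemma inC_of_mem {x : ℕ} (h : dec x ∈ C) : inC x = true := by
  have h1 : ∀ i, par (s i &&& x) = false := by
    intro i
    have h2 := congrFun (mem_C.1 h) i
    rw [L_dec] at h2
    exact bz_inj h2
  have h0 := h1 0
  have h1' := h1 1
  have h2 := h1 2
  have h3 := h1 3
  simp only [s, Matrix.cons_val_zero, Matrix.cons_val_one, Matrix.cons_val] at h0 h1' h2 h3
  simp only [inC, h0, h1', h2, h3, Bool.not_false, Bool.and_self]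

/-! ### Ranks -/

lemma indep {v w : Fin 4 → ZMod 2} (hv : v ≠ 0) (hw : w ≠ 0) (hvw : v ≠ w) :
    LinearIndependent (ZMod 2) ![v, w] := by
  rw [LinearIndependent.pair_iff]
  intro a b hab
  have h2 : ∀ c : ZMod 2, c = 0 ∨ c = 1 := by decide
  rcases h2 a with rfl | rfl <;> rcases h2 b with rfl | rfl
  · exact ⟨rfl, rfl⟩
  · rw [zero_smul, zero_add, one_smul] at hab
    exact absurd hab hw
  · rw [zero_smul, add_zero, one_smul] at hab
    exact absurd hab hv
  · rw [one_smul, one_smul] at hab
    exfalso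
    apply hvw
    ext i
    have h3 := congrFun hab i
    rw [Pi.add_apply, Pi.zero_apply] at h3
    have h4 : ∀ x y : ZMod 2, x + y = 0 → x = y := by decide
    exact h4 _ _ h3

lemma rank_le_two {M : M4} {v w : Fin 4 → ZMod 2} (hv : v ≠ 0) (hw : w ≠ 0) (hvw : v ≠ w)
    (h1 : M.mulVec v = 0) (h2 : M.mulVec w = 0) : M.rank ≤ 2 := by
  have h3 := LinearMap.finrank_range_add_finrank_ker M.mulVecLin
  rw [Module.finrank_fin_fun] at h3
  have h4 : 2 ≤ Module.finrank (ZMod 2) (LinearMap.ker M.mulVecLin) := by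
    have h5 : LinearIndependent (ZMod 2)
        (![⟨v, h1⟩, ⟨w, h2⟩] : Fin 2 → LinearMap.ker M.mulVecLin) := by
      have h6 := indep hv hw hvw
      have h7 : (LinearMap.ker M.mulVecLin).subtype ∘
          (![⟨v, h1⟩, ⟨w, h2⟩] : Fin 2 → LinearMap.ker M.mulVecLin) = ![v, w] := by
        ext i
        fin_cases i <;> rfl
      rw [← h7] at h6
      exact LinearIndependent.of_comp _ h6
    simpa using h5.fintype_card_le_finrank
  rw [Matrix.rank]
  omega

lemma two_le_rank {M : M4} {j k : Fin 4} (hj : M.col j ≠ 0) (hk : M.col k ≠ 0)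
    (hjk : M.col j ≠ M.col k) : 2 ≤ M.rank := by
  rw [Matrix.rank_eq_finrank_span_cols]
  have h5 : LinearIndependent (ZMod 2)
      (![⟨M.col j, Submodule.subset_span ⟨j, rfl⟩⟩, ⟨M.col k, Submodule.subset_span ⟨k, rfl⟩⟩] :
        Fin 2 → Submodule.span (ZMod 2) (Set.range M.col)) := by
    apply LinearIndependent.of_comp (Submodule.span (ZMod 2) (Set.range M.col)).subtype
    convert indep hj hk hjk using 1
    ext i
    fin_cases i <;> rfl
  simpa using h5.fintype_card_le_finrank

/-- the vector given by the bits of `v` -/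
def vec (v : ℕ) : Fin 4 → ZMod 2 := fun j => bz (v.testBit (j : ℕ))

lemma vec_inj {v w : ℕ} (hv : v < 16) (hw : w < 16) (h : vec v = vec w) : v = w := by
  apply Nat.eq_of_testBit_eq
  intro k
  by_cases hk : k < 4
  · exact bz_inj (congrFun h ⟨k, hk⟩)
  · rw [Nat.testBit_lt_two_pow (lt_of_lt_of_le hv (Nat.pow_le_pow_right (n := 2) (by omega)
      (show 4 ≤ k by omega))), Nat.testBit_lt_two_pow (lt_of_lt_of_le hw
      (Nat.pow_le_pow_right (n := 2) (by omega) (show 4 ≤ k by omega)))]

lemma bz_col (t : Bool) (x j i : ℕ) (hi : i < 4) :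
    bz ((cond t (col x j) 0).testBit i) = bz t * bz (x.testBit (4 * j + i)) := by
  cases t
  · simp [bz]
  · simp only [cond_true, col]
    rw [show (16 : ℕ) = 2 ^ 4 by norm_num, Nat.testBit_mod_two_pow, Nat.testBit_shiftRight]
    simp [bz, hi]

lemma mulVec_of_comb {x v : ℕ} (h : comb x v = 0) : (dec x).mulVec (vec v) = 0 := by
  ext i
  have h1 : bz ((comb x v).testBit (i : ℕ)) = 0 := by rw [h]; simp [bz]
  simp only [comb, Nat.testBit_xor, bz_xor, bz_col _ _ _ _ i.2] at h1
  simp only [Matrix.mulVec, dotProduct, Fin.sum_univ_four, dec, vec, Pi.zero_apply, Fin.val_zero,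
    Fin.val_one, Fin.val_two, show ((3 : Fin 4) : ℕ) = 3 from rfl]
  rw [← h1]
  ring

lemma rank_of_deps {x : ℕ} (h : 1 < (deps x).length) : (dec x).rank ≤ 2 := by
  have hnd : (deps x).Nodup := List.nodup_range.filter _
  have h1 : 1 < (deps x).toFinset.card := by rwa [List.toFinset_card_of_nodup hnd]
  obtain ⟨v, hv, w, hw, hvw⟩ := Finset.one_lt_card.1 h1
  rw [List.mem_toFinset, deps, List.mem_filter, List.mem_range, beq_iff_eq] at hv hw
  refine rank_le_two (v := vec (v + 1)) (w := vec (w + 1)) ?_ ?_ ?_ (mulVec_of_comb hv.2)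
    (mulVec_of_comb hw.2)
  · intro h0
    have := vec_inj (v := v + 1) (w := 0) (by omega) (by omega) (by rw [h0]; ext; simp [vec, bz])
    omega
  · intro h0
    have := vec_inj (v := w + 1) (w := 0) (by omega) (by omega) (by rw [h0]; ext; simp [vec, bz])
    omega
  · intro h0
    have := vec_inj (v := v + 1) (w := w + 1) (by omega) (by omega) h0
    omega

/-! ### The search -/

lemma go_true (P : ℕ → Prop) (hx : ∀ x y, P x → P y → P (x ^^^ y)) (hok : ∀ x, P x → ok x = true) :
    ∀ (cs : List (List ℕ)) (sp : List ℕ), (∀ s ∈ sp, P s) → (∀ c ∈ cs, ∃ x ∈ c, P x) →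
      go cs sp = true
  | [], _, _, _ => rfl
  | c :: cs, sp, h1, h2 => by
    obtain ⟨x, hxc, hPx⟩ := h2 c (by simp)
    rw [go, List.any_eq_true]
    refine ⟨x, hxc, ?_⟩
    rw [Bool.and_eq_true, List.all_eq_true]
    refine ⟨fun s hs => hok _ (hx _ _ (h1 s hs) hPx), ?_⟩
    apply go_true P hx hok cs
    · intro s hs
      rw [List.mem_append, List.mem_map] at hs
      rcases hs with hs | ⟨t, ht, rfl⟩
      · exact h1 s hs
      · exact hx _ _ (h1 t ht) hPx
    · intro c' hc'
      exact h2 c' (List.mem_cons_of_mem _ hc')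

/-- the first two columns -/
def two (A : M4) : Fin 4 → Fin 2 → ZMod 2 := fun i j => A i (Fin.castLE (by omega) j)

lemma no_sub (C' : AddSubgroup M4) (hC : C' ≤ C) (hcard : Nat.card C' = 256)
    (hrank : ∀ A ∈ C', A ≠ 0 → 3 ≤ A.rank) : False := by
  -- the projection to the first two columns is injective on `C'`
  have hinj : Function.Injective fun A : C' => two A.1 := by
    intro A B hAB
    by_contra hne
    have hD : A.1 - B.1 ∈ C' := C'.sub_mem A.2 B.2
    have hD0 : A.1 - B.1 ≠ 0 := fun h => hne (Subtype.ext (sub_eq_zero.1 h))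
    have h3 := hrank _ hD hD0
    have h4 : ∀ j : Fin 4, (j : ℕ) < 2 → ∀ i, (A.1 - B.1) i j = 0 := by
      intro j hj i
      have h5 := congrFun (congrFun hAB i) ⟨j, hj⟩
      simp only [two] at h5
      rw [Matrix.sub_apply, sub_eq_zero]
      exact h5
    have h5 : (A.1 - B.1).rank ≤ 2 := by
      refine rank_le_two (v := Pi.single 0 1) (w := Pi.single 1 1) ?_ ?_ ?_ ?_ ?_
      · intro h; have := congrFun h 0; simp at this
      · intro h; have := congrFun h 1; simp at this
      · intro h; have := congrFun h 0; simp at this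
      · ext i; rw [Matrix.mulVec_single_one]; exact h4 0 (by decide) i
      · ext i; rw [Matrix.mulVec_single_one]; exact h4 1 (by decide) i
    omega
  have hfin : Fintype C' := Fintype.ofFinite _
  have hsurj : Function.Surjective fun A : C' => two A.1 := by
    have hb : Function.Bijective fun A : C' => two A.1 := by
      rw [Fintype.bijective_iff_injective_and_card]
      refine ⟨hinj, ?_⟩
      rw [← Nat.card_eq_fintype_card, hcard]
      simp [ZMod.card]
    exact hb.2
  have hgo := go_true (fun x => x < 65536 ∧ dec x ∈ C') ?_ ?_ ((List.range 8).map cand) [0] ?_ ?_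
  · rw [go_false] at hgo
    exact Bool.noConfusion hgo
  · rintro x y ⟨hx1, hx2⟩ ⟨hy1, hy2⟩
    refine ⟨Nat.xor_lt_two_pow (n := 16) hx1 hy1, ?_⟩
    rw [dec_xor]
    exact C'.add_mem hx2 hy2
  · rintro x ⟨hx1, hx2⟩
    unfold ok
    rw [Bool.or_eq_true, decide_eq_true_iff, beq_iff_eq]
    by_contra hcon
    push Not at hcon
    have h1 := rank_of_deps hcon.1
    have h2 := hrank _ hx2 (fun h0 => hcon.2 (dec_inj hx1 (by norm_num) (by
      rw [h0]; ext i j; simp [dec, bz])))
    omega
  · intro x hx
    rw [List.mem_singleton] at hx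
    subst hx
    refine ⟨by norm_num, ?_⟩
    have : dec 0 = 0 := by ext i j; simp [dec, bz]
    rw [this]
    exact C'.zero_mem
  · intro c hc
    rw [List.mem_map] at hc
    obtain ⟨p, hp, rfl⟩ := hc
    rw [List.mem_range] at hp
    obtain ⟨A, hA⟩ := hsurj (fun i j => bz (decide (p = 4 * (j : ℕ) + (i : ℕ))))
    refine ⟨enc A.1, ?_, enc_lt _, ?_⟩
    · rw [cand, List.mem_filter, List.mem_map]
      refine ⟨⟨enc A.1 / 256, ?_, ?_⟩, ?_⟩
      · rw [List.mem_range]
        have := enc_lt A.1
        omega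
      · have h1 : enc A.1 % 256 = 2 ^ p := by
          apply Nat.eq_of_testBit_eq
          intro k
          rw [show (256 : ℕ) = 2 ^ 8 by norm_num, Nat.testBit_mod_two_pow, Nat.testBit_two_pow]
          by_cases hk : k < 8
          · have h2 := congrFun (congrFun hA ⟨k % 4, by omega⟩) ⟨k / 4, by omega⟩
            have h3 := testBit_enc A.1 ⟨k % 4, by omega⟩ ⟨k / 4, by omega⟩
            simp only [two, Fin.castLE_mk] at h2
            rw [h2] at h3
            simp only [show 4 * (k / 4) + k % 4 = k by omega] at h3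
            rw [h3]
            simp only [hk, decide_true, Bool.true_and]
            by_cases hpk : p = k <;> simp [hpk, bz]
          · simp only [hk, decide_false, Bool.false_and]
            symm
            rw [decide_eq_false_iff_not]
            omega
        rw [← h1, add_comm, Nat.div_add_mod]
      · apply inC_of_mem
        rw [dec_enc]
        exact hC A.2
    · rw [dec_enc]
      exact A.2

/-! ### The code has minimum distance 2 -/

set_option maxRecDepth 100000 in
lemma rank_one_free : ∀ u v : Fin 16, (u : ℕ) ≠ 0 → (v : ℕ) ≠ 0 →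
    inC (Nat.ofBits fun k : Fin 16 => (u : ℕ).testBit ((k : ℕ) % 4) && (v : ℕ).testBit ((k : ℕ) / 4))
      = false := by decide +kernel

lemma two_le (A : M4) (hA : A ∈ C) (h0 : A ≠ 0) : 2 ≤ A.rank := by
  by_contra hcon
  -- any two nonzero columns are equal
  have hcol : ∀ j k, A.col j ≠ 0 → A.col k ≠ 0 → A.col j = A.col k := by
    intro j k hj hk
    by_contra hjk
    exact hcon (two_le_rank hj hk hjk)
  obtain ⟨j0, hj0⟩ : ∃ j, A.col j ≠ 0 := by
    by_contra h
    push Not at h
    apply h0
    ext i j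
    exact congrFun (h j) i
  let u : ℕ := Nat.ofBits fun i : Fin 4 => decide (A i j0 = 1)
  let v : ℕ := Nat.ofBits fun j : Fin 4 => decide (A.col j ≠ 0)
  have hu : u < 16 := Nat.ofBits_lt_two_pow (n := 4) _
  have hv : v < 16 := Nat.ofBits_lt_two_pow (n := 4) _
  have hbit : ∀ a b : ZMod 2, a ≠ 0 → (a = 1) := by decide
  have hub : ∀ i : Fin 4, u.testBit (i : ℕ) = decide (A i j0 = 1) := fun i => by
    simp only [u]
    rw [Nat.testBit_ofBits_lt _ _ i.2]
  have hvb : ∀ i : Fin 4, v.testBit (i : ℕ) = decide (A.col i ≠ 0) := fun i => by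
    simp only [v]
    rw [Nat.testBit_ofBits_lt _ _ i.2]
  have hu0 : u ≠ 0 := by
    intro h
    apply hj0
    ext i
    have h1 := hub i
    rw [h, Nat.zero_testBit] at h1
    have h2 : ¬ A i j0 = 1 := by simpa using h1
    by_contra h3
    exact h2 (hbit _ 0 h3)
  have hv0 : v ≠ 0 := by
    intro h
    have h1 := hvb j0
    rw [h, Nat.zero_testBit] at h1
    simp [hj0] at h1
  have h1 := rank_one_free ⟨u, hu⟩ ⟨v, hv⟩ hu0 hv0
  have h2 : dec (Nat.ofBits fun k : Fin 16 => u.testBit ((k : ℕ) % 4) && v.testBit ((k : ℕ) / 4))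
      = A := by
    ext i j
    rw [dec, Nat.testBit_ofBits_lt _ _ (by omega)]
    simp only
    rw [show (4 * (j : ℕ) + (i : ℕ)) % 4 = (i : ℕ) by omega,
      show (4 * (j : ℕ) + (i : ℕ)) / 4 = (j : ℕ) by omega, hub, hvb]
    by_cases hj : A.col j = 0
    · have : A i j = 0 := congrFun hj i
      rw [this]
      simp [hj, bz]
    · have h3 : A i j0 = A i j := congrFun (hcol j0 j hj0 hj) i
      rw [h3]
      simp only [hj, ne_eq, not_false_eq_true, decide_true, Bool.and_true]
      exact bz_eq_one _
  have h3 := inC_of_mem (x := Nat.ofBits fun k : Fin 16 => u.testBit ((k : ℕ) % 4) &&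
    v.testBit ((k : ℕ) / 4)) (by rw [h2]; exact hA)
  rw [h3] at h1
  exact Bool.noConfusion h1

lemma card_C : Nat.card C = 2 ^ 12 := by
  have hsurj : Function.Surjective L := by
    rw [← LinearMap.range_eq_top, eq_top_iff]
    rintro y -
    refine ⟨fun i j => if j = 3 then y i else 0, ?_⟩
    have key : ∀ i k : Fin 4, dec (s i) k 3 = if i = k then 1 else 0 := by decide
    ext i
    simp only [L, LinearMap.coe_mk, AddHom.coe_mk, mul_ite, mul_zero, Finset.sum_ite_eq',
      Finset.mem_univ, if_true, key, ite_mul, one_mul, zero_mul, Finset.sum_ite_eq]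
  have h1 := LinearMap.finrank_range_add_finrank_ker L
  rw [LinearMap.range_eq_top.2 hsurj, finrank_top, Module.finrank_fin_fun,
    Module.finrank_matrix] at h1
  have h2 : Module.finrank (ZMod 2) (LinearMap.ker L) = 12 := by
    simp at h1
    omega
  have h3 : Nat.card (LinearMap.ker L) = Nat.card (ZMod 2) ^ 12 := by
    rw [← h2]
    exact Module.natCard_eq_pow_finrank
  rw [Nat.card_zmod] at h3
  exact h3

/-- The additive MRD code `C` of `4 × 4` matrices over `F_2` has minimum distance 2 and contains no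
additive MRD code with minimum distance 3. -/
theorem result : ∃ C : AddSubgroup (Matrix (Fin 4) (Fin 4) (ZMod 2)), IsAdditiveMRD C 2 ∧
    ∀ C' : AddSubgroup (Matrix (Fin 4) (Fin 4) (ZMod 2)), C' ≤ C → ¬ IsAdditiveMRD C' 3 := by
  refine ⟨C, ⟨⟨?_, ?_⟩, ?_⟩, ?_⟩
  · have hmem : dec 0x28 ∈ C := by
      rw [mem_C]
      ext i
      rw [L_dec]
      revert i
      decide
    have h0 : dec 0x28 ≠ 0 := by
      intro h
      have := congrFun (congrFun h 1) 1
      revert this
      decide
    refine ⟨dec 0x28, hmem, 0, C.zero_mem, h0, ?_⟩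
    rw [sub_zero]
    refine le_antisymm ?_ (two_le _ hmem h0)
    apply rank_of_deps
    decide +kernel
  · rintro r ⟨A, hA, B, hB, hAB, rfl⟩
    exact two_le _ (C.sub_mem hA hB) (fun h => hAB (sub_eq_zero.1 h))
  · rw [card_C, Nat.card_zmod]
  · rintro C' hC' ⟨⟨_, h2⟩, h3⟩
    rw [Nat.card_zmod] at h3
    refine no_sub C' hC' (by rw [h3]; norm_num) fun A hA h0 => ?_
    exact h2 ⟨A, hA, 0, C'.zero_mem, h0, by rw [sub_zero]⟩

end Pool.Agent.Results.MP_e73581_co.NotNested
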